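import Pool.Agent.H859R2.SimplexMain

set_option autoImplicit false

namespace Pool.Agent.Results.MP_bc3e0b_gt.HyperbolicHalf

open MeasureTheory

/-- **The hyperbolic half, in every dimension.** In the Klein model of hyperbolic `d`-space (the
open unit ball of `ℝ^d`, whose volume element is `(1 - |x|²)^(-(d+1)/2) dx`) let `ρ > 0`. A compact
simplex circumscribed about the ball with centre `0` and Euclidean radius `ρ` (hyperbolic radius
`artanh ρ`) is `{x | ∀ i, ⟪a i, x⟫ ≤ ρ}` for `d + 1` unit vectors `a i`, provided that this set lies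
in the open unit ball. If there is such a simplex, then the regular one (unit normals `b i` with
`⟪b i, b j⟫ = -1/d`) also lies in the open unit ball, and its volume is at most that of the given
simplex. -/
theorem result : ∀ d : ℕ, 1 ≤ d → ∀ (ρ : ℝ), 0 < ρ →
    ∀ (a b : Fin (d + 1) → EuclideanSpace ℝ (Fin d)),
      (∀ i, ‖a i‖ = 1) → (∀ i, ‖b i‖ = 1) →
      (∀ i j, i ≠ j → inner ℝ (b i) (b j) = (-1 : ℝ) / (d : ℝ)) →
      {x : EuclideanSpace ℝ (Fin d) | ∀ i, inner ℝ (a i) x ≤ ρ} ⊆ Metric.ball 0 1 →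
      {x : EuclideanSpace ℝ (Fin d) | ∀ i, inner ℝ (b i) x ≤ ρ} ⊆ Metric.ball 0 1 ∧
      (∫⁻ x in {x : EuclideanSpace ℝ (Fin d) | ∀ i, inner ℝ (b i) x ≤ ρ},
          ENNReal.ofReal ((1 - ‖x‖ ^ 2) ^ (-(((d : ℝ) + 1) / 2))))
        ≤ ∫⁻ x in {x : EuclideanSpace ℝ (Fin d) | ∀ i, inner ℝ (a i) x ≤ ρ},
          ENNReal.ofReal ((1 - ‖x‖ ^ 2) ^ (-(((d : ℝ) + 1) / 2))) := by
  intro d hd ρ hρ a b ha hb hg hsub
  have hd' : 0 < d := hd
  exact ⟨H859R2.reg_subset hd' hρ ha ⟨hb, hg⟩ hsub,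
    H859R2.volume_le hd' hρ ha ⟨hb, hg⟩ hsub⟩

end Pool.Agent.Results.MP_bc3e0b_gt.HyperbolicHalf
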